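import Pool.Agent.Q101.TBasis

set_option autoImplicit false

open Filter Topology

namespace Pool.Agent.Results.MP_8f7167_an.TBasisNotGamma

section Defs

variable {𝕜 : Type} [RCLike 𝕜] {E : Type} [NormedAddCommGroup E] [NormedSpace 𝕜 E]

/-- `(x_n)` with the functionals `(f_n)` is an M-basis: biorthogonal, dense span, total. -/
def IsMBasis (x : ℕ → E) (f : ℕ → E →L[𝕜] 𝕜) : Prop :=
  (∀ i j, f i (x j) = if i = j then 1 else 0) ∧
  closure ((Submodule.span 𝕜 (Set.range x) : Submodule 𝕜 E) : Set E) = Set.univ ∧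
  ∀ v : E, (∀ i, f i v = 0) → v = 0

/-- The matrix `t` is consistent. -/
def IsConsistent (t : ℕ → ℕ → 𝕜) : Prop :=
  (∃ C : ℝ, ∀ n, Summable (fun m => ‖t n m‖) ∧ ∑' m, ‖t n m‖ ≤ C) ∧
  (∀ m, Tendsto (fun n => t n m) atTop (𝓝 0)) ∧
  Tendsto (fun n => ∑' m, t n m) atTop (𝓝 1)

/-- The scalar sequence `α` sums to `v` by the method `t`: for every `n` the limit `σ n` of
`∑_{j ≤ m} t_{nj} ∑_{i ≤ j} α_i x_i` as `m → ∞` exists, and `σ n → v`. (All indices start at `0`,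
so column `j` carries the partial sum of the first `j + 1` terms.) -/
def IsTExpansion (t : ℕ → ℕ → 𝕜) (x : ℕ → E) (α : ℕ → 𝕜) (v : E) : Prop :=
  ∃ σ : ℕ → E,
    (∀ n, Tendsto (fun m => ∑ j ∈ Finset.range m, t n j • ∑ i ∈ Finset.range (j + 1), α i • x i)
      atTop (𝓝 (σ n))) ∧
    Tendsto σ atTop (𝓝 v)

/-- `(x_n)` is a `T`-basis: every vector has exactly one expansion for the method `t`. -/
def IsTBasis (t : ℕ → ℕ → 𝕜) (x : ℕ → E) : Prop :=
  ∀ v : E, ∃! α : ℕ → 𝕜, IsTExpansion t x α v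

/-- `λ_{nm} = ∑_{j ≥ m} t_{nj}`. -/
noncomputable def tailSum (t : ℕ → ℕ → 𝕜) (n m : ℕ) : 𝕜 := ∑' j, t n (m + j)

/-- The M-basis `(x, f)` is a `γ`-basis with respect to the matrix `l`. -/
def IsGammaBasis (l : ℕ → ℕ → 𝕜) (x : ℕ → E) (f : ℕ → E →L[𝕜] 𝕜) : Prop :=
  ∀ v : E, ∃ τ : ℕ → E,
    (∀ n, Tendsto (fun m => ∑ i ∈ Finset.range m, (l n i * f i v) • x i) atTop (𝓝 (τ n))) ∧
    Tendsto τ atTop (𝓝 v)

end Defs

/-- Over each of the fields `ℝ`, `ℂ`: a consistent matrix, a Banach space and a bounded M-basis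
(normalized vectors, functionals of norm at most one) that is a `T`-basis but not a `γ`-basis with
respect to the tail-sum matrix; for some vector all the tail-sum series diverge. -/
theorem result (𝕜 : Type) [RCLike 𝕜] :
    ∃ (t : ℕ → ℕ → 𝕜) (E : Type) (_ : NormedAddCommGroup E) (_ : NormedSpace 𝕜 E)
      (_ : CompleteSpace E) (x : ℕ → E) (f : ℕ → E →L[𝕜] 𝕜),
      IsConsistent t ∧ IsMBasis x f ∧ (∀ n, ‖x n‖ = 1) ∧ (∀ n, ‖f n‖ ≤ 1) ∧ IsTBasis t x ∧
      ¬ IsGammaBasis (tailSum t) x f ∧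
      ∃ v : E, ∀ (n : ℕ) (w : E),
        ¬ Tendsto (fun m => ∑ i ∈ Finset.range m, (tailSum t n i * f i v) • x i) atTop (𝓝 w) := by
  have htail : ∀ n m, tailSum (fun n j => ((Q101.TBasis.t n j : ℝ) : 𝕜)) n m =
      ((Q101.TBasis.a n m : ℝ) : 𝕜) := fun n m =>
    ((Q101.TBasis.hasSum_t n m).mapL RCLike.ofRealCLM).tsum_eq
  have hdiv : ∀ (n : ℕ) (w : Q101.LUCC.X 𝕜),
      ¬ Tendsto (fun m => ∑ i ∈ Finset.range m,
        (tailSum (fun n j => ((Q101.TBasis.t n j : ℝ) : 𝕜)) n i *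
          Q101.TBasis.ys 𝕜 i (Q101.TBasis.bad 𝕜)) • Q101.TBasis.y 𝕜 i) atTop (𝓝 w) := by
    intro n w
    simp only [htail]
    exact Q101.TBasis.diverges n w
  refine ⟨fun n j => ((Q101.TBasis.t n j : ℝ) : 𝕜), Q101.LUCC.X 𝕜, inferInstance, inferInstance,
    inferInstance, Q101.TBasis.y 𝕜, Q101.TBasis.ys 𝕜, ?_,
    ⟨Q101.TBasis.y_biorth 𝕜, Set.eq_univ_iff_forall.2 (Q101.TBasis.dense 𝕜), Q101.TBasis.total 𝕜⟩,
    fun n => Q101.LUCC.norm_x 𝕜 _, fun n => ContinuousLinearMap.opNorm_le_bound _ zero_le_one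
      fun v => by rw [one_mul]; exact Q101.LUCC.norm_xs_le 𝕜 _ v, ?_, ?_,
    Q101.TBasis.bad 𝕜, hdiv⟩
  · -- consistency
    refine ⟨⟨1, fun n => ?_⟩, fun m => ?_, ?_⟩
    · have h : (fun m => ‖((Q101.TBasis.t n m : ℝ) : 𝕜)‖) = Q101.TBasis.t n := by
        funext m
        rw [RCLike.norm_ofReal, abs_of_nonneg (Q101.TBasis.t_nonneg n m)]
      rw [h]
      exact ⟨(Q101.TBasis.hasSum_t0 n).summable, (Q101.TBasis.hasSum_t0 n).tsum_eq.le⟩
    · refine tendsto_const_nhds.congr' ?_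
      refine (Q101.TBasis.t_eventually m).mono fun n hn => ?_
      simp only [hn, RCLike.ofReal_zero]
    · have h : ∀ n, ∑' m, ((Q101.TBasis.t n m : ℝ) : 𝕜) = 1 := by
        intro n
        have := ((Q101.TBasis.hasSum_t0 n).mapL (RCLike.ofRealCLM (K := 𝕜))).tsum_eq
        simpa using this
      simp only [h]
      exact tendsto_const_nhds
  · -- T-basis
    intro v
    refine ⟨fun i => Q101.TBasis.ys 𝕜 i v, ?_, ?_⟩
    · exact Q101.TBasis.method
        (fun k => ∑ i ∈ Finset.range k, Q101.TBasis.ys 𝕜 i v • Q101.TBasis.y 𝕜 i) v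
        (Q101.TBasis.tendsto_block 𝕜 v)
    · rintro α ⟨σ, h1, h2⟩
      have h3 := Q101.TBasis.unique (fun k => ∑ i ∈ Finset.range k, α i • Q101.TBasis.y 𝕜 i)
        v σ h1 h2
      funext i
      have h4 := ((Q101.TBasis.ys 𝕜 i).continuous.tendsto v).comp h3
      refine tendsto_nhds_unique (tendsto_const_nhds.congr' ?_) h4
      refine (eventually_ge_atTop i).mono fun n hn => ?_
      change α i = Q101.TBasis.ys 𝕜 i
        (∑ j ∈ Finset.range (Q101.TBasis.B (n + 1)), α j • Q101.TBasis.y 𝕜 j)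
      have hlt : i < Q101.TBasis.B (n + 1) := by
        have h5 := Q101.TBasis.B_add (n + 1)
        have h6 : n + 1 < 16 ^ (n + 1) := Nat.lt_pow_self (by norm_num)
        omega
      rw [map_sum, Finset.sum_eq_single i]
      · rw [map_smul, Q101.TBasis.y_biorth, if_pos rfl, smul_eq_mul, mul_one]
      · intro b _ hb
        rw [map_smul, Q101.TBasis.y_biorth, if_neg hb.symm, smul_zero]
      · intro h
        exact absurd (Finset.mem_range.2 hlt) h
  · -- not a γ-basis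
    intro h
    obtain ⟨τ, hτ, _⟩ := h (Q101.TBasis.bad 𝕜)
    exact hdiv 0 (τ 0) (hτ 0)

end Pool.Agent.Results.MP_8f7167_an.TBasisNotGamma
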